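import Pool.Agent.Y816.PD.Chain

/-!
# Cunningham chains of almost primes with a composite next term and restricted digits

A Cunningham chain of the second kind of length `k` consists of the primes `n`, `2 n - 1`, `4 n - 3`, ...,
`2 ^ j (n - 1) + 1`, `j < k`; for the first kind the terms are `2 ^ j (n + 1) - 1`. Q1 asks whether there are
chains of the second kind of every length.

Let `b ≥ 2` be a base and `A 0, A 1, ..., A (K - 1)` arbitrary nonempty sets of digits, and consider the
`∏ |A i|` integers `0 ≤ n < b ^ K` whose `i`-th digit in base `b` is in `A i` for all `i < K`. Suppose that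
`∏ |A i| ≥ exp (- c K) b ^ K` with a small constant `c > 0` which depends on `k` only (not on `b`): for example,
in every large base `b` a bounded proportion of the digits, depending on `k`, may be forbidden at every
place, the forbidden digits being different at different places; or in any base all digits may be
prescribed at a small proportion of the places.

Theorem. Let `k ≥ 1`, and let `r` be large in terms of `k`. For every base `b` and all large `K`:

(1) if some `d` in `A 0` is such that the first `k` terms of the chain which starts with `d` are prime to `b`,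
then there are at least `κ ∏ |A i| / K ^ k` integers `n` with digits in the sets `A i` such that each of the
first `k` terms of the chain which starts with `n` has at most `r` prime factors, all of them larger than
`n ^ (1 / r)`, and the next term of the chain is composite (`κ > 0` depends on `k, r, b`);

(2) there are at most `C ∏ |A i| / K ^ k` integers `n` with digits in the sets `A i` such that all the prime
factors of the first `k` terms are larger than `n ^ (1 / r)`;

(3) in particular, at most `C ∏ |A i| / K ^ k` integers with digits in the sets `A i` start a Cunningham chain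
of length `k`.

The order of magnitude `∏ |A i| / K ^ k`, that is `1 / (log N) ^ k` of the `∏ |A i|` integers up to
`N = b ^ K`, is the expected one for the chains of primes themselves. The theorem holds for the chains of
both kinds.

Proof. The sieve of dimension `k` (Brun-Hooley) is applied to the set of the integers with restricted
digits. The distribution of this set in the arithmetic progressions to moduli `q`, on average over `q` up
to a small power of `b ^ K`, is obtained from the large sieve and from bounds for its exponential sum,
which is a product over the digits (`Pool.Agent.Y816.PD`, files of the starting library, of which the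
theorem on chains was not handed in before; only a case of four linear polynomials is used in a starting
result, on another problem). To make the next term composite the integers `n` for which the first `k + 1`
terms have no small prime factor, at most `C' ∏ |A i| / K ^ (k + 1)` of them, are removed.
-/

set_option autoImplicit false

namespace Pool.Agent.Results.MP_9f2731_nt.RestrictedDigits

open Finset Filter

/-- the terms of the chain of the second kind (`p`, `2 p - 1`, ...) which starts with `n` -/
def second (j n : ℕ) : ℕ := 2 ^ j * (n - 1) + 1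

/-- the terms of the chain of the first kind (`p`, `2 p + 1`, ...) which starts with `n` -/
def first (j n : ℕ) : ℕ := 2 ^ j * (n + 1) - 1

/-- the integers `n < b ^ K` whose `i`-th digit in base `b` belongs to `A i` for all `i < K` -/
def withDigits (b K : ℕ) (A : ℕ → Finset ℕ) : Set ℕ := {n | n < b ^ K ∧ ∀ i < K, n / b ^ i % b ∈ A i}

/-- all prime factors of the first `k` terms of the chain which starts with `n` are larger than `n ^ (1 / r)` -/
def Rough (c : ℕ → ℕ → ℕ) (k r n : ℕ) : Prop :=
  ∀ j < k, ∀ p : ℕ, p.Prime → p ∣ c j n → (n : ℝ) ^ (1 / (r : ℝ)) < (p : ℝ)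

/-- the first `k` terms have at most `r` prime factors, all of them larger than `n ^ (1 / r)`, and the next
term is composite -/
def ExactChain (c : ℕ → ℕ → ℕ) (k r n : ℕ) : Prop :=
  (Rough c k r n ∧ ∀ j < k, (c j n).primeFactorsList.length ≤ r) ∧ 1 < c k n ∧ ¬ (c k n).Prime

/-- the number of the integers in `S` with restricted digits -/
noncomputable def count (b K : ℕ) (A : ℕ → Finset ℕ) (S : ℕ → Prop) : ℕ := {n | n ∈ withDigits b K A ∧ S n}.ncard

lemma count_eq (b K : ℕ) (A : ℕ → Finset ℕ) (S : ℕ → Prop) :
    count b K A S = Pool.Agent.Y816.PD.ND b K A {n | S n} := by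
  classical
  unfold count Pool.Agent.Y816.PD.ND withDigits
  rw [← Set.ncard_coe_finset]
  congr 1
  ext n
  simp only [Set.mem_ofPred_eq, coe_filter, mem_range]
  tauto

lemma count_mono {b K : ℕ} {A : ℕ → Finset ℕ} {S T : ℕ → Prop} (h : ∀ n, S n → T n) :
    count b K A S ≤ count b K A T := by
  rw [count_eq, count_eq]
  exact Pool.Agent.Y816.PD.ND_mono h

lemma rough_of_prime {c : ℕ → ℕ → ℕ} (hc : c = second ∨ c = first) {k r n : ℕ} (hk : 1 ≤ k) (hr : 2 ≤ r)
    (h : ∀ j < k, (c j n).Prime) : Rough c k r n := by
  intro j hj p hp hpd
  have h0 : (c 0 n).Prime := h 0 (by omega)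
  have hn : 2 ≤ n := by
    rcases hc with rfl | rfl
    · simp only [second, pow_zero, one_mul] at h0
      have := h0.two_le
      omega
    · simp only [first, pow_zero, one_mul, Nat.add_sub_cancel] at h0
      exact h0.two_le
  have h1 : n ≤ c j n := by
    have h2 : 1 ≤ 2 ^ j := Nat.one_le_two_pow
    rcases hc with rfl | rfl
    · simp only [second]
      have := Nat.mul_le_mul_right (n - 1) h2
      omega
    · simp only [first]
      have := Nat.mul_le_mul_right (n + 1) h2
      omega
  have h2 : p = c j n := (Nat.prime_dvd_prime_iff_eq hp (h j hj)).1 hpd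
  have h3 : (n : ℝ) ^ (1 / (r : ℝ)) < n := by
    apply Real.rpow_lt_self_of_one_lt
    · exact_mod_cast (by omega : 1 < n)
    · rw [div_lt_one (by exact_mod_cast (by omega : 0 < r))]
      exact_mod_cast (by omega : 1 < r)
  refine h3.trans_le ?_
  rw [h2]
  exact_mod_cast h1

/-- **Chains of almost primes with a composite next term and restricted digits.** For `k ≥ 1` there are `c₀ > 0` and
`r₀` such that for all `r ≥ r₀` and all bases `b ≥ 2` there are `κ, C > 0` such that for all large `K` and all sets
of digits `A i` with `∏ |A i| ≥ exp (- c₀ K) b ^ K` the following holds, for the chains of the second and of the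
first kind: (1) if the first `k` terms of the chain which starts with `d + b` are prime to `b` for some `d` in
`A 0`, then there are at least `κ ∏ |A i| / K ^ k` integers `n < b ^ K` with digits in the sets `A i` for which
the first `k` terms are almost primes and the next term is composite; (2) there are at most
`C ∏ |A i| / K ^ k` such `n` for which the first `k` terms have no prime factor `≤ n ^ (1 / r)`; (3) in
particular, at most `C ∏ |A i| / K ^ k` of them start a Cunningham chain of length `k`. -/
theorem result (c : ℕ → ℕ → ℕ) (hc : c = second ∨ c = first) (k : ℕ) (hk : 1 ≤ k) :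
    ∃ c₀ : ℝ, 0 < c₀ ∧ ∃ r₀ : ℕ, ∀ r : ℕ, r₀ ≤ r → ∀ b : ℕ, 2 ≤ b → ∃ κ C : ℝ, 0 < κ ∧ 0 < C ∧
      ∀ᶠ K : ℕ in atTop, ∀ A : ℕ → Finset ℕ, (∀ i < K, A i ⊆ range b) →
        Real.exp (-(c₀ * K)) * (b : ℝ) ^ K ≤ ∏ i ∈ range K, ((A i).card : ℝ) →
        ((∃ d ∈ A 0, ∀ j < k, (c j (d + b)).Coprime b) →
          κ * (∏ i ∈ range K, ((A i).card : ℝ)) / (K : ℝ) ^ k ≤ count b K A (ExactChain c k r)) ∧
        (count b K A (Rough c k r) : ℝ) ≤ C * (∏ i ∈ range K, ((A i).card : ℝ)) / (K : ℝ) ^ k ∧
        (count b K A (fun n => ∀ j < k, (c j n).Prime) : ℝ) ≤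
          C * (∏ i ∈ range K, ((A i).card : ℝ)) / (K : ℝ) ^ k := by
  have hc' : (∀ j n, c j n = 2 ^ j * (n + 1) - 1) ∨ (∀ j n, c j n = 2 ^ j * (n - 1) + 1) := by
    rcases hc with rfl | rfl
    · exact Or.inr fun j n => rfl
    · exact Or.inl fun j n => rfl
  obtain ⟨c₀, hc₀, r₀, hr₀, h⟩ := Pool.Agent.Y816.PD.exact_chain c hc' k hk
  refine ⟨c₀, hc₀, r₀, fun r hr b hb => ?_⟩
  obtain ⟨κ, C, hκ, hC, h1⟩ := h r hr b hb
  refine ⟨κ, C, hκ, hC, h1.mono fun K hK A hA hprod => ?_⟩
  have h2 : (b : ℝ) ^ K ≤ Real.exp (c₀ * K) * Pool.Agent.Y816.PD.NA K A := by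
    have h3 := mul_le_mul_of_nonneg_left hprod (Real.exp_pos (c₀ * K)).le
    rw [← mul_assoc, ← Real.exp_add, add_neg_cancel, Real.exp_zero, one_mul] at h3
    exact h3
  obtain ⟨h4, h5⟩ := hK A hA h2
  have h6 : (count b K A (Rough c k r) : ℝ) ≤ C * (∏ i ∈ range K, ((A i).card : ℝ)) / (K : ℝ) ^ k := by
    rw [count_eq]
    exact h5
  refine ⟨fun hd => ?_, h6, ?_⟩
  · rw [count_eq]
    exact h4 hd
  · refine le_trans ?_ h6
    exact_mod_cast count_mono fun n hn => rough_of_prime hc hk (hr₀.trans hr) hn

end Pool.Agent.Results.MP_9f2731_nt.RestrictedDigits
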