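import Pool.Agent.Y816.PD.Inst2

/-!
# The primes and almost primes `p` with `p ^ 2 + p + 1` prime or almost prime and restricted digits

Q1 is the asymptotic formula for the number of the primes `p` up to `n` for which `p ^ 2 + p + 1` is a prime;
it is not known whether there are infinitely many.

Let `b ≥ 2` be a base and `A 0, A 1, ..., A (K - 1)` arbitrary nonempty sets of digits, and consider the
`∏ |A i|` integers `0 ≤ n < b ^ K` whose `i`-th digit in base `b` is in `A i` for all `i < K`. Suppose that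
`∏ |A i| ≥ exp (- c K) b ^ K` with a small constant `c > 0` (which does not depend on `b`): for example,
in every large base `b` a bounded proportion of the digits may be forbidden at every place, the forbidden
digits being different at different places; or in any base all digits may be prescribed at a small
proportion of the places.

Theorem. Let `F = a X ^ 2 + e X + c` be a primitive irreducible integer polynomial, `a > 0`, such that for every
prime `p` some `m` satisfies `p ∤ m F(m)`; for instance `F = X ^ 2 + X + 1`. Let `r` be large in terms of `F`. For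
every base `b` and all large `K`:

(1) if some `d` in `A 0` is such that `d` and `F(d)` are prime to `b`, then there are at least
`κ ∏ |A i| / K ^ 2` integers `n` with digits in the sets `A i` such that `n` and `F(n)` have at most `r` prime
factors each, all of them larger than `n ^ (1 / r)` (`κ > 0` depends on `F, r, b`);

(2) there are at most `C ∏ |A i| / K ^ 2` integers `n` with digits in the sets `A i` such that all the prime
factors of `n` and of `F(n)` are larger than `n ^ (1 / r)`;

(3) at most `C ∏ |A i| / K ^ 2` primes `p` with digits in the sets `A i` are such that `p ^ 2 + p + 1` is a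
prime (here `F = X ^ 2 + X + 1`).

The order of magnitude `∏ |A i| / K ^ 2`, that is `1 / (log N) ^ 2` of the `∏ |A i|` integers up to `N = b ^ K`, is
the expected one for the primes `p` with `p ^ 2 + p + 1` prime.

Proof. The sieve of dimension two (Brun-Hooley) is applied to the set of the integers with restricted
digits. The distribution of this set in the arithmetic progressions to moduli `q`, on average over `q` up
to a small power of `b ^ K`, is obtained from the large sieve and from bounds for its exponential sum,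
which is a product over the digits (`Pool.Agent.Y816.PD`, files of the starting library, of which the
theorem on quadratic polynomials was not handed in before; only a case of four linear polynomials is used
in a starting result, on another problem).
-/

set_option autoImplicit false

namespace Pool.Agent.Results.MP_82233c_nt.RestrictedDigits

open Finset Filter

/-- the integers `n < b ^ K` whose `i`-th digit in base `b` belongs to `A i` for all `i < K` -/
def withDigits (b K : ℕ) (A : ℕ → Finset ℕ) : Set ℕ := {n | n < b ^ K ∧ ∀ i < K, n / b ^ i % b ∈ A i}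

/-- the number of the integers with the property `S` and with restricted digits -/
noncomputable def count (b K : ℕ) (A : ℕ → Finset ℕ) (S : ℕ → Prop) : ℕ := {n | n ∈ withDigits b K A ∧ S n}.ncard

/-- the value at `n` of the polynomial `a X ^ 2 + e X + c` -/
def val (a e c : ℤ) (n : ℕ) : ℤ := a * (n : ℤ) ^ 2 + e * n + c

/-- `a > 0`, the polynomial `a X ^ 2 + e X + c` is primitive and irreducible, and `X (a X ^ 2 + e X + c)` has no
fixed prime divisor -/
def Admissible (a e c : ℤ) : Prop :=
  0 < a ∧ (∀ p : ℕ, p.Prime → ¬ ((p : ℤ) ∣ a ∧ (p : ℤ) ∣ e ∧ (p : ℤ) ∣ c)) ∧ ¬ IsSquare (e ^ 2 - 4 * a * c) ∧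
    ∀ p : ℕ, p.Prime → ∃ m : ℕ, ¬ p ∣ m ∧ ¬ (p : ℤ) ∣ val a e c m

/-- all prime factors of `n` and of the value at `n` are larger than `n ^ (1 / r)` -/
def Rough (a e c : ℤ) (r n : ℕ) : Prop :=
  (∀ p : ℕ, p.Prime → p ∣ n → (n : ℝ) ^ (1 / (r : ℝ)) < (p : ℝ)) ∧
    ∀ p : ℕ, p.Prime → (p : ℤ) ∣ val a e c n → (n : ℝ) ^ (1 / (r : ℝ)) < (p : ℝ)

/-- `n` and the value at `n` have at most `r` prime factors each, all of them larger than `n ^ (1 / r)` -/
def AlmostPrime (a e c : ℤ) (r n : ℕ) : Prop :=
  Rough a e c r n ∧ n.primeFactorsList.length ≤ r ∧ (val a e c n).natAbs.primeFactorsList.length ≤ r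

lemma count_eq (b K : ℕ) (A : ℕ → Finset ℕ) (S : ℕ → Prop) :
    count b K A S = Pool.Agent.Y816.PD.ND b K A {n | S n} := by
  classical
  unfold count Pool.Agent.Y816.PD.ND withDigits
  rw [← Set.ncard_coe_finset]
  congr 1
  ext n
  simp only [Set.mem_ofPred_eq, coe_filter, mem_range]
  tauto

lemma count_mono {b K : ℕ} {A : ℕ → Finset ℕ} {S T : ℕ → Prop} (h : ∀ n, S n → T n) :
    count b K A S ≤ count b K A T := by
  classical
  rw [count_eq, count_eq]
  unfold Pool.Agent.Y816.PD.ND
  refine card_le_card fun n hn => ?_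
  rw [mem_filter] at hn ⊢
  exact ⟨hn.1, hn.2.1, h n hn.2.2⟩

/-- the polynomial `X ^ 2 + X + 1` -/
lemma admissible_one : Admissible 1 1 1 := by
  refine ⟨one_pos, fun p hp h => ?_, ?_, fun p hp => ?_⟩
  · have h1 : (p : ℤ) ∣ 1 := h.1
    have h2 := Int.natCast_dvd_natCast.1 (by simpa using h1 : (p : ℤ) ∣ ((1 : ℕ) : ℤ))
    exact hp.one_lt.ne' (Nat.dvd_one.1 h2)
  · rintro ⟨x, hx⟩
    nlinarith [mul_self_nonneg x]
  · by_cases h3 : p = 3
    · subst h3
      refine ⟨2, by norm_num, ?_⟩
      simp only [val]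
      norm_num
    · refine ⟨1, ?_, ?_⟩
      · intro h
        exact hp.one_lt.ne' (Nat.dvd_one.1 h)
      · intro h
        simp only [val] at h
        have h1 : (p : ℤ) ∣ ((3 : ℕ) : ℤ) := by
          have : (1 : ℤ) * ((1 : ℕ) : ℤ) ^ 2 + 1 * ((1 : ℕ) : ℤ) + 1 = ((3 : ℕ) : ℤ) := by norm_num
          rwa [this] at h
        have h2 := Int.natCast_dvd_natCast.1 h1
        exact h3 ((Nat.prime_dvd_prime_iff_eq hp Nat.prime_three).1 h2)

lemma rough_of_prime {r n : ℕ} (hr : 2 ≤ r) (h1 : n.Prime) (h2 : (n ^ 2 + n + 1).Prime) : Rough 1 1 1 r n := by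
  have h3 : (n : ℝ) ^ (1 / (r : ℝ)) < n := by
    apply Real.rpow_lt_self_of_one_lt
    · exact_mod_cast h1.one_lt
    · rw [div_lt_one (by exact_mod_cast (by omega : 0 < r))]
      exact_mod_cast (by omega : 1 < r)
  refine ⟨fun p hp hpd => ?_, fun p hp hpd => ?_⟩
  · rw [(Nat.prime_dvd_prime_iff_eq hp h1).1 hpd]
    exact h3
  · have h4 : (p : ℤ) ∣ ((n ^ 2 + n + 1 : ℕ) : ℤ) := by
      simp only [val] at hpd
      have : (1 : ℤ) * (n : ℤ) ^ 2 + 1 * n + 1 = ((n ^ 2 + n + 1 : ℕ) : ℤ) := by push_cast; ring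
      rwa [this] at hpd
    have h5 := (Nat.prime_dvd_prime_iff_eq hp h2).1 (Int.natCast_dvd_natCast.1 h4)
    refine h3.trans_le ?_
    rw [h5]
    have : n ≤ n ^ 2 + n + 1 := by nlinarith
    exact_mod_cast this

/-- **Almost primes `n` with `F(n)` almost prime and restricted digits.** For an admissible quadratic polynomial
`F = a X ^ 2 + e X + c` there are `c₀ > 0` and `r₀` such that for all `r ≥ r₀` and all bases `b ≥ 2` there are
`κ, C > 0` such that for all large `K` and all sets of digits `A i` with `∏ |A i| ≥ exp (- c₀ K) b ^ K`: (1) if `d`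
and `F(d)` are prime to `b` for some `d` in `A 0`, then there are at least `κ ∏ |A i| / K ^ 2` integers
`n < b ^ K` with digits in the sets `A i` for which `n` and `F(n)` are almost primes; (2) there are at most
`C ∏ |A i| / K ^ 2` such `n` for which `n` and `F(n)` have no prime factor `≤ n ^ (1 / r)`. The polynomial
`X ^ 2 + X + 1` is admissible, and (3) with its constants at most `C ∏ |A i| / K ^ 2` primes `p < b ^ K` with
digits in the sets `A i` are such that `p ^ 2 + p + 1` is a prime. -/
theorem result :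
    (∀ a e c : ℤ, Admissible a e c →
      ∃ c₀ : ℝ, 0 < c₀ ∧ ∃ r₀ : ℕ, ∀ r : ℕ, r₀ ≤ r → ∀ b : ℕ, 2 ≤ b → ∃ κ C : ℝ, 0 < κ ∧ 0 < C ∧
        ∀ᶠ K : ℕ in atTop, ∀ A : ℕ → Finset ℕ, (∀ i < K, A i ⊆ range b) →
          Real.exp (-(c₀ * K)) * (b : ℝ) ^ K ≤ ∏ i ∈ range K, ((A i).card : ℝ) →
          ((∃ d ∈ A 0, Nat.Coprime d b ∧ IsCoprime (val a e c d) (b : ℤ)) →
            κ * (∏ i ∈ range K, ((A i).card : ℝ)) / (K : ℝ) ^ 2 ≤ count b K A (AlmostPrime a e c r)) ∧
          (count b K A (Rough a e c r) : ℝ) ≤ C * (∏ i ∈ range K, ((A i).card : ℝ)) / (K : ℝ) ^ 2 ∧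
          (a = 1 → e = 1 → c = 1 → (count b K A (fun p => p.Prime ∧ (p ^ 2 + p + 1).Prime) : ℝ) ≤
            C * (∏ i ∈ range K, ((A i).card : ℝ)) / (K : ℝ) ^ 2)) ∧
    Admissible 1 1 1 := by
  refine ⟨fun a e c had => ?_, admissible_one⟩
  obtain ⟨ha, hg, hD, hadm⟩ := had
  obtain ⟨c₀, hc₀, r₀, hr₀, h⟩ := Pool.Agent.Y816.PD.digits_quadX a e c ha hg hD hadm
    (fun r => {n | Rough a e c r n}) (fun r => {n | AlmostPrime a e c r n})
    (fun r m _ hm => hm) (fun r m _ h1 h2 h3 h4 => ⟨⟨h1, h2⟩, h3, h4⟩)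
    (fun b d => Nat.Coprime d b ∧ IsCoprime (val a e c d) (b : ℤ)) (by
      rintro b d hb ⟨h1, h2⟩ p hp hpb
      refine ⟨fun h3 => ?_, fun h3 => ?_⟩
      · have := Nat.dvd_gcd h3 hpb
        rw [h1] at this
        exact hp.one_lt.ne' (Nat.dvd_one.1 this)
      · have h4 : (p : ℤ) ∣ (b : ℤ) := Int.natCast_dvd_natCast.2 hpb
        have h5 : IsUnit (p : ℤ) := h2.isUnit_of_dvd' h3 h4
        rw [Int.isUnit_iff] at h5
        have := hp.one_lt
        omega)
  refine ⟨c₀, hc₀, r₀, fun r hr b hb => ?_⟩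
  obtain ⟨κ, C, hκ, hC, h1⟩ := h r hr b hb
  refine ⟨κ, C, hκ, hC, h1.mono fun K hK A hA hprod => ?_⟩
  have h2 : (b : ℝ) ^ K ≤ Real.exp (c₀ * K) * Pool.Agent.Y816.PD.NA K A := by
    have h3 := mul_le_mul_of_nonneg_left hprod (Real.exp_pos (c₀ * K)).le
    rw [← mul_assoc, ← Real.exp_add, add_neg_cancel, Real.exp_zero, one_mul] at h3
    exact h3
  obtain ⟨h4, h5⟩ := hK A hA h2
  have h6 : (count b K A (Rough a e c r) : ℝ) ≤ C * (∏ i ∈ range K, ((A i).card : ℝ)) / (K : ℝ) ^ 2 := by
    rw [count_eq]
    exact h5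
  refine ⟨fun hd => ?_, h6, ?_⟩
  · rw [count_eq]
    exact h4 hd
  · rintro rfl rfl rfl
    refine le_trans ?_ h6
    have h7 : count b K A (fun p => p.Prime ∧ (p ^ 2 + p + 1).Prime) ≤ count b K A (Rough 1 1 1 r) :=
      count_mono fun n hn => rough_of_prime (hr₀.trans hr) hn.1 hn.2
    exact_mod_cast h7

end Pool.Agent.Results.MP_82233c_nt.RestrictedDigits
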